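import Pool.Agent.X119.MilTrB
import Pool.Agent.X119.MilTrD
import Pool.Agent.X119.MilPr

/-!
# Logarithms of the primes of Mills-type sequences

For every real `c ≥ c₀` and every given sequence `w` of complex numbers the following holds for a set of numbers `θ` of
Hausdorff dimension `1`: the numbers `a_n = ⌊θ ^ (c ^ n)⌋` are prime for all large `n`, and for all `q`, `m`, `D` there is
`N` such that the logarithms of any `m` distinct primes `a_k`, `k ≥ N`, do not satisfy any nonzero polynomial relation of
degree at most `D`, over any number field of degree at most `D`, with coefficients in the span of `w_0, …, w_{q-1}` over this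
field; there is no bound for the heights of the coefficients and of the number field.

Proof. The theorem `Pool.Agent.Y916.Al.windowP` (Siegel's method for the functions `log (1 + β x)` with unknown constants)
shows that in a window of length `H` at `t ≥ (H + 2) ^ E` at most `j + 1` numbers `y` have a logarithm which is a root of a
nonzero polynomial of degree at most `j` whose coefficients are polynomials of degree at most `j` in `j` given numbers. The
given numbers may be the logarithms of earlier terms of the sequence; a form of the theorem on Mills-type sequences in which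
the property of the new term may depend on all the earlier terms (`Pool.Agent.X119.Mil.mills_hist`) gives the result.
-/

set_option autoImplicit false

namespace Pool.Agent.Results.MP_d171e3_nt.MillsPrimes

/-- There is `c₀` such that for all `c ≥ c₀`, all sequences `w` of complex numbers and all open sets `U` which meet
`(1, ∞)` the set of the following `θ ∈ U` has Hausdorff dimension `1`: `a_n = ⌊θ ^ (c ^ n)⌋` is prime for all large `n`, and
for all `q`, `m`, `D` there is `N` such that for all number fields `K` of degree at most `D`, all distinct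
`k_1, …, k_m ≥ N` and all nonzero polynomials `P` in `m` variables of total degree at most `D` with coefficients in the
`K`-span of `w_0, …, w_{q-1}` the number `P (log a_{k_1}, …, log a_{k_m})` is not zero. -/
theorem result : ∃ c₀ : ℝ, ∀ c : ℝ, c₀ ≤ c → ∀ w : ℕ → ℂ, ∀ U : Set ℝ, IsOpen U → (U ∩ Set.Ioi 1).Nonempty →
    dimH {θ : ℝ | θ ∈ U ∧ 1 < θ ∧ (∃ N₀ : ℕ, ∀ n : ℕ, N₀ ≤ n → Nat.Prime ⌊θ ^ (c ^ n)⌋₊) ∧
      ∀ q m D : ℕ, ∃ N : ℕ, ∀ K : IntermediateField ℚ ℂ, FiniteDimensional ℚ K → Module.finrank ℚ K ≤ D →
        ∀ k : Fin m → ℕ, Function.Injective k → (∀ i, N ≤ k i) →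
        ∀ P : MvPolynomial (Fin m) ℂ, P ≠ 0 → P.totalDegree ≤ D →
          (∀ s, P.coeff s ∈ Submodule.span K (w '' Set.Iio q)) →
          MvPolynomial.eval (fun i => ((Real.log (⌊θ ^ (c ^ k i)⌋₊ : ℕ) : ℝ) : ℂ)) P ≠ 0} = 1 := by
  obtain ⟨c₀, hc₀, h⟩ := Pool.Agent.X119.Mil.primes_mills
  refine ⟨c₀, fun c hc w U hU hne => ?_⟩
  exact Pool.Agent.X119.MilTr.mills_logs Pool.Agent.X119.MilTr.win c (by linarith) Nat.Prime (h c hc) w U hU hne

end Pool.Agent.Results.MP_d171e3_nt.MillsPrimes
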