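import Pool.Agent.X191.MS.Main
import Pool.Agent.X191.MS.Dens
import Pool.Agent.H297R2.Density
import Pool.Agent.H297R2.InBakerThm

/-!
# Algebraic independence of the logarithms of the primes as an asymptotic statement on dimensions

Let `L` be the completely multiplicative function with `L p = ln p` for all primes `p`. The `L n`, `n ≥ 1`, are the
monomials in the numbers `ln p`. Let `s (N)` be the dimension over `ℚ` of the span of `L 1, …, L N`, and let `n` be
*redundant* if `L n` is a rational combination of `L 1, …, L (n - 1)`.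

* `N - s (N)` is the number of redundant `n ≤ N`, and all multiples of a redundant number are redundant. The redundant
  numbers have an analytic density `F`, and up to `ε` it comes from the multiples of finitely many of them.
* The logarithms of the primes are algebraically independent iff there are no redundant numbers, iff `F = 0`, iff
  `s (N) ≥ (1 - c) N` for each `c > 0` and arbitrarily large `N`.
* If `s (N) > N - ⌊N / m⌋` for a single `N` then `L 1, …, L m` are linearly independent.
* `s (N) ≥ 1 + π(N)`, by the theorem of Baker.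
-/

set_option autoImplicit false

open Filter Topology

namespace Pool.Agent.Results.MP_d171e3_nt.MonomialSpans

/-- the product of the `(ln p) ^ a` over the prime powers `p ^ a ‖ n` -/
noncomputable def L (n : ℕ) : ℝ := n.factorization.prod fun p a => Real.log p ^ a

/-- the span of `L 1, …, L N` over `ℚ` -/
noncomputable def V (N : ℕ) : Submodule ℚ ℝ := Submodule.span ℚ (L '' Set.Icc 1 N)

/-- the `n ≥ 1` for which `L n` is a rational combination of `L 1, …, L (n - 1)` -/
def Redundant : Set ℕ := {n | 1 ≤ n ∧ L n ∈ Submodule.span ℚ (L '' Set.Ico 1 n)}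

/-- `∑_{n ∈ S} n ^ (-s) / ∑ n ^ (-s)` -/
noncomputable def proportion (S : Set ℕ) (s : ℝ) : ℝ :=
  (∑' n : ℕ, S.indicator (fun n : ℕ => (n : ℝ) ^ (-s)) n) / ∑' n : ℕ, (n : ℝ) ^ (-s)

/-- the positive multiples of the elements of `A` -/
def multiples (A : Set ℕ) : Set ℕ := {n | ∃ a ∈ A, a ∣ n ∧ 1 ≤ n}

/-- Q1: the logarithms of distinct primes are algebraically independent -/
def Independence : Prop :=
  ∀ (m : ℕ) (p : Fin m → ℕ), Function.Injective p → (∀ i, (p i).Prime) →
    AlgebraicIndependent ℚ (fun i : Fin m => Real.log ((p i : ℕ) : ℝ))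

theorem L_eq (n : ℕ) : L n = Pool.Agent.X191.MS.L (fun p => Real.log p) n := rfl

theorem independence_iff : Independence ↔ AlgebraicIndependent ℚ (fun p : Nat.Primes => Real.log ((p : ℕ) : ℝ)) := by
  constructor
  · intro h
    refine algebraicIndependent_of_finite_type fun t ht => ?_
    have := ht.fintype
    set e := (Fintype.equivFin t).symm with he
    have h1 := h (Fintype.card t) (fun i => ((e i : Nat.Primes) : ℕ))
      (fun a b hab => e.injective (Subtype.ext (Subtype.ext hab))) (fun i => (e i : Nat.Primes).2)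
    exact (algebraicIndependent_equiv e).1 h1
  · intro h m p hp hpp
    exact h.comp (fun i => (⟨p i, hpp i⟩ : Nat.Primes)) (fun a b hab => hp (congrArg Subtype.val hab))

theorem baker_bound (N : ℕ) (hN : 1 ≤ N) : Nat.primeCounting N + 1 ≤ Module.finrank ℚ (V N) := by
  classical
  set Q := {p : ℕ // p ∈ (Finset.Icc 1 N).filter Nat.Prime} with hQ
  have hpr : ∀ p : Q, p.1.Prime := fun p => (Finset.mem_filter.1 p.2).2
  have hle : ∀ p : Q, 1 ≤ p.1 ∧ p.1 ≤ N := fun p => Finset.mem_Icc.1 (Finset.mem_filter.1 p.2).1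
  have hL : ∀ p : Q, L p.1 = Real.log p.1 := fun p => by
    rw [L_eq]
    exact Pool.Agent.X191.MS.L_prime _ (hpr p)
  have hlog := Pool.Agent.H297R2.linearIndependent_log_prime (ι := Q) (fun p => p.1) hpr Subtype.val_injective
  let w : Option Q → V N := fun o => match o with
    | none => ⟨L 1, Submodule.subset_span ⟨1, ⟨le_rfl, hN⟩, rfl⟩⟩
    | some p => ⟨L p.1, Submodule.subset_span ⟨p.1, ⟨(hle p).1, (hle p).2⟩, rfl⟩⟩
  have hw : LinearIndependent ℚ w := by
    rw [Fintype.linearIndependent_iff]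
    intro g hg
    have h1 := congrArg (fun v : V N => ((v : ℝ) : ℂ)) hg
    simp only [Fintype.sum_option, w, Submodule.coe_add, Submodule.coe_smul, Submodule.coe_sum,
      Submodule.coe_zero] at h1
    have h2 : (g none : ℂ) + ∑ p : Q, (g (some p) : ℂ) * (Real.log p.1 : ℂ) = 0 := by
      have hL1 : L 1 = 1 := by rw [L_eq]; exact Pool.Agent.X191.MS.L_one _
      rw [hL1] at h1
      simp only [hL, Algebra.smul_def] at h1
      push_cast at h1
      simpa using h1
    have h3 := Pool.Agent.H297R2.baker_inhom (fun p : Q => (Real.log p.1 : ℂ)) (fun p => ?_) hlog (g none)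
      (isAlgebraic_algebraMap (g none)) (fun p => (g (some p) : ℂ)) (fun p => isAlgebraic_algebraMap (g (some p))) h2
    · intro o
      cases o with
      | none => exact_mod_cast h3.1
      | some p => exact_mod_cast h3.2 p
    · have h4 : Complex.exp (Real.log p.1 : ℂ) = ((p.1 : ℕ) : ℂ) := by
        rw [← Complex.ofReal_exp, Real.exp_log (by exact_mod_cast (hpr p).pos)]
        norm_cast
      rw [h4]
      exact isAlgebraic_algebraMap ((p.1 : ℕ) : ℚ)
  have hfd : FiniteDimensional ℚ (V N) := FiniteDimensional.span_of_finite ℚ ((Set.finite_Icc 1 N).image _)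
  have h5 := hw.fintype_card_le_finrank
  have h6 : Fintype.card Q = Nat.primeCounting N := by
    have h7 : Fintype.card Q = ((Finset.Icc 1 N).filter Nat.Prime).card := Fintype.card_coe _
    rw [h7, Nat.primeCounting, Nat.primeCounting', Nat.count_eq_card_filter_range]
    congr 1
    ext p
    simp only [Finset.mem_filter, Finset.mem_Icc, Finset.mem_range]
    constructor
    · rintro ⟨⟨h1, h2⟩, h3⟩; exact ⟨by omega, h3⟩
    · rintro ⟨h1, h2⟩; exact ⟨⟨h2.one_lt.le, by omega⟩, h2⟩
  rw [Fintype.card_option, h6] at h5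
  exact h5

theorem result :
    -- dimensions and redundant numbers
    (∀ N, Module.finrank ℚ (V N) + Nat.card {n : ℕ // n ∈ Redundant ∧ 1 ≤ n ∧ n ≤ N} = N) ∧
    (∀ n m, 1 ≤ m → n ∈ Redundant → n * m ∈ Redundant) ∧
    (∀ n ∈ Redundant, ∀ N, Module.finrank ℚ (V N) + N / n ≤ N) ∧
    -- the density of the redundant numbers
    (∃ F : ℝ, Tendsto (proportion Redundant) (𝓝[>] 1) (𝓝 F) ∧ (∀ n ∈ Redundant, 1 / (n : ℝ) ≤ F) ∧
      (∀ ε : ℝ, 0 < ε → ∃ A : Finset ℕ, (A : Set ℕ) ⊆ Redundant ∧ multiples A ⊆ Redundant ∧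
        ∃ δ : ℝ, F - ε ≤ δ ∧ Tendsto (proportion (multiples A)) (𝓝[>] 1) (𝓝 δ)) ∧
      (Independence ↔ F = 0)) ∧
    -- the conjecture
    (Independence ↔ Redundant = ∅) ∧
    (Independence ↔ ∀ c : ℝ, 0 < c → ∀ N₀ : ℕ, ∃ N : ℕ, N₀ ≤ N ∧ (1 - c) * N ≤ Module.finrank ℚ (V N)) ∧
    -- one dimension suffices for the relations between `L 1, …, L m`
    (∀ m N : ℕ, 1 ≤ m → N < Module.finrank ℚ (V N) + N / m → LinearIndependent ℚ (fun n : Fin m => L (n + 1))) ∧
    -- the known lower bound
    (∀ N, 1 ≤ N → Nat.primeCounting N + 1 ≤ Module.finrank ℚ (V N)) := by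
  classical
  have hup : Pool.Agent.X27.Mult.Up Redundant := Pool.Agent.X191.MS.up fun p => Real.log p
  have hge : ∀ n ∈ Redundant, 1 ≤ n := fun n hn => hn.1
  have hcard : ∀ N, Nat.card {n : ℕ // n ∈ Redundant ∧ 1 ≤ n ∧ n ≤ N} =
      ((Finset.Icc 1 N).filter fun n => n ∈ Redundant).card := by
    intro N
    have h1 : Nat.card {n : ℕ // n ∈ (Finset.Icc 1 N).filter fun n => n ∈ Redundant} =
        ((Finset.Icc 1 N).filter fun n => n ∈ Redundant).card := by
      rw [Nat.card_eq_fintype_card, Fintype.card_coe]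
    rw [← h1]
    refine Nat.card_congr (Equiv.subtypeEquivRight fun n => ?_)
    simp only [Finset.mem_filter, Finset.mem_Icc]
    tauto
  have hdim : ∀ N, Module.finrank ℚ (V N) + Nat.card {n : ℕ // n ∈ Redundant ∧ 1 ≤ n ∧ n ≤ N} = N := by
    intro N
    rw [hcard]
    exact Pool.Agent.X191.MS.finrank_V (fun p => Real.log p) N
  have hQ : Independence ↔ Redundant = ∅ :=
    independence_iff.trans (Pool.Agent.X191.MS.algInd_R fun p => Real.log p)
  refine ⟨hdim, hup, fun n hn N => ?_, ?_, hQ, ?_, ?_, baker_bound⟩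
  · have h1 := Pool.Agent.X191.MS.count_ge hup hn hn.1 N
    have h2 := hdim N
    omega
  · obtain ⟨F, -, -, h1, h2, h3, h4⟩ := Pool.Agent.X191.MS.dens hup hge
    exact ⟨F, h1, h2, h3, hQ.trans h4.symm⟩
  · rw [hQ]
    constructor
    · intro h c hc N₀
      refine ⟨N₀, le_rfl, ?_⟩
      have h1 := hdim N₀
      have : IsEmpty {n : ℕ // n ∈ Redundant ∧ 1 ≤ n ∧ n ≤ N₀} := by
        constructor
        rintro ⟨n, hn, -⟩
        rw [h] at hn
        exact hn
      rw [Nat.card_of_isEmpty, add_zero] at h1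
      rw [h1]
      have : (0 : ℝ) ≤ N₀ := Nat.cast_nonneg _
      nlinarith
    · intro h
      refine Pool.Agent.X191.MS.empty_of_few hup hge fun c hc X₀ => ?_
      obtain ⟨X, h1, h2⟩ := h c hc X₀
      refine ⟨X, h1, ?_⟩
      have h3 : (Module.finrank ℚ (V X) : ℝ) + Nat.card {n : ℕ // n ∈ Redundant ∧ 1 ≤ n ∧ n ≤ X} = X := by
        exact_mod_cast hdim X
      linarith
  · intro m N hm h
    exact Pool.Agent.X191.MS.local_ind (fun p => Real.log p) hm h

end Pool.Agent.Results.MP_d171e3_nt.MonomialSpans
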