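import Pool.Agent.Results.MP_d171e3_nt.ArbitraryConstants
import Pool.Agent.X174.WinRat

/-!
# Logarithms of ALL tuples of integers in cubes around thin sequences, over fields generated by arbitrary constants

Let `m ≥ 1`, `g`, `d`, `A ≥ 0` and `ε > 0`. There is `B` such that for every sequence `v ≥ 1` of exponent of convergence at
most `τ` (for `v_i = i ^ a` this is `1 / a`, for `v_i = b ^ i` it is `0`) and `ρ < 1` and every sequence `ξ_0, ξ_1, …` of
`g`-tuples of complex numbers there is ONE set `E ⊂ ℝ^m` of Hausdorff dimension at most `(m - 1 + ε + τ) / (1 - ρ)` such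
that for each `α` outside `E` and each `t`, for all but finitely many `i` and ALL integers `x_1, …, x_m ≥ 1` in the cube
`|x_j - α_j v_i| ≤ v_i ^ ρ` (in particular all primes `x_j`): a polynomial `P` of degree at most `d` in each variable with
coefficients in `ℤ[ξ_t]` of degree at most `d` and height at most `v_i ^ A` takes at `(log x_1, …, log x_m)` a value of
absolute value larger than `v_i ^ (-B)` times the absolute value of each of its nonzero coefficients.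

The number of exceptions is from the starting result `ArbitraryConstants`.
-/

set_option autoImplicit false

namespace Pool.Agent.Results.MP_d171e3_nt.PrimesInCubes

/-- the exponent of convergence of the sequence `v` is at most `τ` -/
def ExpLe (v : ℕ → ℝ) (τ : ℝ) : Prop := ∀ t : ℝ, τ < t → Summable (fun n : ℕ => (v n) ^ (-t))

/-- **Theorem.** Let `m ≥ 1`, `g`, `d` be natural numbers, `A ≥ 0` and `ε > 0`. There is `B` such that for every sequence
`v ≥ 1` of exponent of convergence at most `τ ≥ 0`, every `ρ < 1` and every sequence `ξ_0, ξ_1, …` of `g`-tuples of complex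
numbers there is a set `E ⊂ ℝ^m` of Hausdorff dimension at most `(m - 1 + ε + τ) / (1 - ρ)` such that for each `α` outside
`E` and each `t`, for all but finitely many `i`: for ALL integers `x_1, …, x_m ≥ 1` with `|x_j - α_j v_i| ≤ v_i ^ ρ` for all
`j` and every polynomial `P` in `m` variables of degree at most `d` in each variable, whose coefficients are polynomials in
`g` variables of degree at most `d` in each variable with integer coefficients of absolute value at most `v_i ^ A`, the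
absolute value of `P (ξ_t, log x)` is larger than `v_i ^ (-B)` times the absolute value of each of the nonzero coefficients
of the polynomial `P (ξ_t, X)`. The sequences `v_i = (i + 1) ^ a` and `v_i = b ^ i` have exponent of convergence at most
`1 / a` and `0`. -/
theorem result :
    (∀ (m g d : ℕ), 1 ≤ m → ∀ A ε : ℝ, 0 ≤ A → 0 < ε →
      ∃ B : ℝ, ∀ (v : ℕ → ℝ) (τ ρ : ℝ), (∀ i, 1 ≤ v i) → 0 ≤ τ → ExpLe v τ → ρ < 1 → ∀ ξ : ℕ → Fin g → ℂ,
      ∃ E : Set (Fin m → ℝ), dimH E ≤ ENNReal.ofReal (((m : ℝ) - 1 + ε + τ) / (1 - ρ)) ∧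
        ∀ α : Fin m → ℝ, α ∉ E → ∀ t : ℕ, ∃ i₀ : ℕ, ∀ i : ℕ, i₀ ≤ i →
          ∀ x : Fin m → ℕ, (∀ j, 1 ≤ x j) → (∀ j, |(x j : ℝ) - α j * v i| ≤ (v i) ^ ρ) →
            ∀ P : MvPolynomial (Fin m) (MvPolynomial (Fin g) ℤ), (∀ j, P.degreeOf j ≤ d) →
              (∀ e s, (P.coeff e).degreeOf s ≤ d) → (∀ e u, |(((P.coeff e).coeff u : ℤ) : ℝ)| ≤ (v i) ^ A) →
              ∀ e, MvPolynomial.aeval (ξ t) (P.coeff e) ≠ 0 →
                (v i) ^ (-B) * ‖MvPolynomial.aeval (ξ t) (P.coeff e)‖ <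
                  ‖MvPolynomial.eval₂ (MvPolynomial.aeval (ξ t)).toRingHom
                    (fun j => (Real.log (x j) : ℂ)) P‖) ∧
    (∀ a : ℝ, 0 < a → ExpLe (fun n : ℕ => ((n : ℝ) + 1) ^ a) (1 / a)) ∧
    (∀ b : ℝ, 1 < b → ExpLe (fun n : ℕ => b ^ n) 0) := by
  refine ⟨fun m g d hm A ε hA hε => ?_, fun κ hκ => Pool.Agent.Y854.GM.expLe_pow κ hκ,
    fun b hb => Pool.Agent.Y854.GM.expLe_geom b hb⟩
  obtain ⟨B0, C, h⟩ := ArbitraryConstants.result m g d hm A ε hε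
  have hm1 : (1 : ℝ) ≤ m := by exact_mod_cast hm
  have hs0 : 0 ≤ (m : ℝ) - 1 + ε := by linarith
  refine ⟨max B0 0 + 1, fun v τ ρ hv hτ hE hρ ξ => ?_⟩
  have hvp : ∀ i, 0 < v i := fun i => lt_of_lt_of_le one_pos (hv i)
  have key : ∀ t : ℕ, ∃ E : Set (Fin m → ℝ), dimH E ≤ ENNReal.ofReal (((m : ℝ) - 1 + ε + τ) / (1 - ρ)) ∧
      ∀ α : Fin m → ℝ, α ∉ E → ∀ R : ℕ, 1 ≤ R → ∃ i₀ : ℕ, ∀ i : ℕ, i₀ ≤ i → ∀ x : Fin m → ℕ,
        (∀ j, |(x j : ℝ) - α j * v i| ≤ (v i) ^ ρ) →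
          x ∉ ArbitraryConstants.Exceptional m g d ⌈(R : ℝ) * v i⌉₊ A B0 (ξ t) := by
    intro t
    obtain ⟨E, hE1, hE2⟩ := Pool.Agent.X174.winFam (κ := Fin m) (Q := Fin m → ℕ) (fun x j => (x j : ℝ))
      (fun T => ArbitraryConstants.Exceptional m g d ⌈T⌉₊ A B0 (ξ t)) (s := (m : ℝ) - 1 + ε)
      (C := |C| * 2 ^ ((m : ℝ) - 1 + ε)) hs0
      (fun T hT => by
        have hT1 : 1 ≤ ⌈T⌉₊ := Nat.one_le_ceil_iff.2 (by linarith)
        obtain ⟨h1, h2⟩ := h ⌈T⌉₊ hT1 (ξ t)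
        refine ⟨h1, h2.trans ?_⟩
        have h3 : (⌈T⌉₊ : ℝ) ≤ 2 * T := by linarith [Nat.ceil_lt_add_one (show (0 : ℝ) ≤ T by linarith)]
        calc C * (⌈T⌉₊ : ℝ) ^ ((m : ℝ) - 1 + ε) ≤ |C| * (⌈T⌉₊ : ℝ) ^ ((m : ℝ) - 1 + ε) :=
              mul_le_mul_of_nonneg_right (le_abs_self C) (by positivity)
          _ ≤ |C| * (2 * T) ^ ((m : ℝ) - 1 + ε) := mul_le_mul_of_nonneg_left
              (Real.rpow_le_rpow (by positivity) h3 hs0) (abs_nonneg C)
          _ = |C| * 2 ^ ((m : ℝ) - 1 + ε) * T ^ ((m : ℝ) - 1 + ε) := by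
              rw [Real.mul_rpow (by norm_num) (by linarith)]
              ring)
      hv hτ hE hρ
    exact ⟨E, hE1, hE2⟩
  choose Es hEs1 hEs2 using key
  refine ⟨⋃ t, Es t, ?_, fun α hα t => ?_⟩
  · rw [dimH_iUnion]
    exact iSup_le hEs1
  obtain ⟨R, hR, hRc⟩ := Pool.Agent.X174.le_of_cube α
  obtain ⟨i₁, hi₁⟩ := hEs2 t α (fun hmem => hα (Set.mem_iUnion.2 ⟨_, hmem⟩)) R hR
  obtain ⟨i₂, hi₂⟩ := Pool.Agent.X174.small_of_small (Pool.Agent.Y854.GM.tendsto_of_expLe hvp hτ hE) hv (R + 1)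
    (by omega) B0
  refine ⟨max i₁ i₂, fun i hi x hx hcube P hP1 hP2 hP3 e he => ?_⟩
  by_contra hcon
  push Not at hcon
  have hi1 : i₁ ≤ i := (le_max_left _ _).trans hi
  have hi2 : i₂ ≤ i := (le_max_right _ _).trans hi
  apply hi₁ i hi1 x hcube
  have hR1 : (1 : ℝ) ≤ R := by exact_mod_cast hR
  have hRv : v i ≤ R * v i := by nlinarith [hvp i]
  have hNge : v i ≤ (⌈(R : ℝ) * v i⌉₊ : ℝ) := hRv.trans (Nat.le_ceil _)
  have hNle : (⌈(R : ℝ) * v i⌉₊ : ℝ) ≤ (R + 1 : ℕ) * v i := by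
    have h1 := Nat.ceil_lt_add_one (show (0 : ℝ) ≤ (R : ℝ) * v i from mul_nonneg (by linarith) (hvp i).le)
    push_cast
    nlinarith [hv i]
  refine ⟨fun j => ⟨hx j, ?_⟩, P, hP1, hP2, fun e u => (hP3 e u).trans (Real.rpow_le_rpow (hvp i).le hNge hA),
    e, he, hcon.trans (mul_le_mul_of_nonneg_right ?_ (norm_nonneg _))⟩
  · have h3 := hRc (fun j => (x j : ℝ)) (v i) ρ (hv i) hρ hcube j
    simp only [Nat.abs_cast] at h3
    have h4 : (x j : ℝ) ≤ (⌈(R : ℝ) * v i⌉₊ : ℝ) := h3.trans (Nat.le_ceil _)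
    exact_mod_cast h4
  · -- `v ^ (-(max B0 0 + 1)) ≤ N ^ (-B0)` for `v ≤ N ≤ (R + 1) v`
    have hN1 : (1 : ℝ) ≤ (⌈(R : ℝ) * v i⌉₊ : ℝ) := (hv i).trans hNge
    have hNp : (0 : ℝ) < (⌈(R : ℝ) * v i⌉₊ : ℝ) := by linarith
    have h5 := hi₂ i hi2
    have h5' : (v i) ^ (-(max B0 0 + 1)) ≤ (((R + 1 : ℕ) : ℝ) * v i) ^ (-B0) := h5
    by_cases hB : 0 ≤ B0
    · refine h5'.trans ?_
      have hRp : (0 : ℝ) < ((R + 1 : ℕ) : ℝ) * v i := mul_pos (by positivity) (hvp i)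
      rw [Real.rpow_neg hRp.le, Real.rpow_neg hNp.le]
      exact inv_anti₀ (Real.rpow_pos_of_pos hNp _) (Real.rpow_le_rpow hNp.le hNle hB)
    · push Not at hB
      calc (v i) ^ (-(max B0 0 + 1)) ≤ (v i) ^ (0 : ℝ) := by
            apply Real.rpow_le_rpow_of_exponent_le (hv i)
            linarith [le_max_right B0 0]
        _ = 1 := Real.rpow_zero _
        _ ≤ (⌈(R : ℝ) * v i⌉₊ : ℝ) ^ (-B0) := Real.one_le_rpow hN1 (by linarith)

end Pool.Agent.Results.MP_d171e3_nt.PrimesInCubes
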