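import Mathlib
import Pool.Agent.X142.RF.Gen

/-!
# Relations `A(log p) + B(log p) log q = 0`: a zero-one law and a count of near relations
-/

set_option autoImplicit false

namespace Pool.Agent.Results.MP_d171e3_nt.RationalFunctionsOfALogarithm

open Polynomial

/-- The height of the pair `(A, B)`: the largest absolute value of a coefficient of `A` or `B`. -/
noncomputable def height (p : ℤ[X] × ℤ[X]) : ℕ :=
  max (p.1.support.sup fun i => (p.1.coeff i).natAbs) (p.2.support.sup fun i => (p.2.coeff i).natAbs)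

/-- For all large real `H` there are integer polynomials `A`, `B`, not both zero, of degree at most `m` and with
coefficients of absolute value at most `H`, such that `|A(x) + B(x) t| ≤ H ^ (-τ)`. -/
def Uniform (x : ℝ) (m : ℕ) (t τ : ℝ) : Prop :=
  ∃ H₀ : ℝ, ∀ H : ℝ, H₀ ≤ H → ∃ A B : ℤ[X], (A ≠ 0 ∨ B ≠ 0) ∧ A.natDegree ≤ m ∧ B.natDegree ≤ m ∧
    (∀ i, |(A.coeff i : ℝ)| ≤ H) ∧ (∀ i, |(B.coeff i : ℝ)| ≤ H) ∧
    |aeval x A + aeval x B * t| ≤ H ^ (-τ)

/-- The pairs `(A, B)` of integer polynomials of degree at most `m` without common divisor in `ℤ[x]`, `B` with positive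
leading coefficient, with `|A(x) + B(x) t| ≤ height ^ (-w)`. -/
def Near (x t : ℝ) (m : ℕ) (w : ℝ) : Set (ℤ[X] × ℤ[X]) :=
  {p | IsRelPrime p.1 p.2 ∧ 0 < p.2.leadingCoeff ∧ p.1.natDegree ≤ m ∧ p.2.natDegree ≤ m ∧
    |aeval x p.1 + aeval x p.2 * t| ≤ (height p : ℝ) ^ (-w)}

/-- For every positive rational `r ≠ 1` (for instance a prime) and every `m` there is `κ` such that, with `l = log r`, for
every real `t` (for instance the logarithm of another prime): (1) if `τ > κ`, the following are equivalent: `A(l) + B(l) t = 0` for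
some integer polynomials `A`, `B ≠ 0` of degree at most `m`; the uniform exponent is at least `τ`; the uniform exponent is
infinite; (2) near relations of exponent `w > κ` are sparse, uniformly in `t`. -/
theorem result (r : ℚ) (hr : 0 < r) (hr1 : r ≠ 1) (m : ℕ) : ∃ κ : ℝ, 0 < κ ∧
    (∀ t τ : ℝ, κ < τ → [∃ A B : ℤ[X], A.natDegree ≤ m ∧ B.natDegree ≤ m ∧ B ≠ 0 ∧
        aeval (Real.log r) A + aeval (Real.log r) B * t = 0,
      Uniform (Real.log r) m t τ, ∀ σ : ℝ, Uniform (Real.log r) m t σ].TFAE) ∧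
    (∀ w ρ : ℝ, 1 < ρ → ρ < w / κ → ∃ H₀ : ℝ, ∀ t X : ℝ, 3 ≤ X →
      {p ∈ Near (Real.log r) t m w | H₀ ≤ height p ∧ (height p : ℝ) ≤ X}.Finite ∧
      ({p ∈ Near (Real.log r) t m w | H₀ ≤ height p ∧ (height p : ℝ) ≤ X}.ncard : ℝ) ≤
        Real.log (Real.log X) / Real.log ρ + 1) :=
  Pool.Agent.X142.RF.main (Real.log r) (Pool.Agent.TH456.TM.measT_real_log r hr hr1) m

end Pool.Agent.Results.MP_d171e3_nt.RationalFunctionsOfALogarithm
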